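import Pool.Agent.N332.GK.Defs

/-!
GK/G2 (helper530): the upper bound for `k log (ck k)`.
-/

set_option autoImplicit false

namespace Pool.Agent.N530.GK

open Pool.Agent.N332.GK

theorem sixteen_pow_le (k : ℕ) (hk : 1 ≤ k) : 16 ^ k ≤ 4 * k * (Nat.centralBinom k) ^ 2 := by
  induction k, hk using Nat.le_induction with
  | base => simp [Nat.centralBinom]
  | succ k hk ih =>
    have h1 := Nat.succ_mul_centralBinom_succ k
    have h2 : (k + 1) * 16 ^ (k + 1) ≤ (k + 1) * (4 * (k + 1) * (Nat.centralBinom (k + 1)) ^ 2) := by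
      have h3 : (k + 1) * (4 * (k + 1) * (Nat.centralBinom (k + 1)) ^ 2)
          = 4 * ((k + 1) * Nat.centralBinom (k + 1)) ^ 2 := by ring
      rw [h3, h1]
      calc (k + 1) * 16 ^ (k + 1) = 16 * (k + 1) * 16 ^ k := by ring
        _ ≤ 16 * (k + 1) * (4 * k * (Nat.centralBinom k) ^ 2) := Nat.mul_le_mul_left _ ih
        _ = (64 * (k * (k + 1))) * (Nat.centralBinom k) ^ 2 := by ring
        _ ≤ (16 * (2 * k + 1) ^ 2) * (Nat.centralBinom k) ^ 2 := by
            apply Nat.mul_le_mul_right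
            nlinarith
        _ = 4 * (2 * (2 * k + 1) * Nat.centralBinom k) ^ 2 := by ring
    exact Nat.le_of_mul_le_mul_left h2 (Nat.succ_pos k)

theorem log_ck_le {k : ℕ} (hk : 6 ≤ k) :
    k * Real.log (ck k) ≤ ((k : ℝ) + 1 / 2) * Real.log k + Real.log 2 - 1 / 2 := by
  have hk0 : (0:ℝ) < k := by
    have : 0 < k := by omega
    exact_mod_cast this
  have hk6 : (6:ℝ) ≤ k := by exact_mod_cast hk
  have hC : (0:ℝ) < ((2 * k).choose k : ℝ) := by
    exact_mod_cast Nat.choose_pos (by omega)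
  have hb : (0:ℝ) < 2 * (2 * (k:ℝ) - 1) := by linarith
  have hX : (0:ℝ) < (2 * (2 * (k : ℝ) - 1)) ^ k / ((2 * k).choose k : ℝ) := by positivity
  have e1 : k * Real.log (ck k) =
      k * Real.log (2 * (2 * (k : ℝ) - 1)) - Real.log ((2 * k).choose k : ℝ) := by
    unfold ck
    rw [Real.log_rpow hX, Real.log_div (by positivity) hC.ne', Real.log_pow]
    field_simp
  have e2 : Real.log (2 * (2 * (k : ℝ) - 1)) ≤ Real.log 4 + Real.log k - 1 / (2 * k) := by
    have h1 : 2 * (2 * (k : ℝ) - 1) = 4 * k * (1 - 1 / (2 * k)) := by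
      field_simp
      ring
    have h2 : (0:ℝ) < 1 - 1 / (2 * k) := by
      have : 1 / (2 * (k:ℝ)) ≤ 1 / 12 := by
        apply one_div_le_one_div_of_le <;> linarith
      linarith
    rw [h1, Real.log_mul (by positivity) h2.ne', Real.log_mul (by norm_num) hk0.ne']
    have := Real.log_le_sub_one_of_pos h2
    linarith
  have e3 : (k:ℝ) * Real.log 4 - Real.log 2 - 1 / 2 * Real.log k
      ≤ Real.log ((2 * k).choose k : ℝ) := by
    have h1 : (16:ℝ) ^ k ≤ 4 * k * ((2 * k).choose k : ℝ) ^ 2 := by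
      have := sixteen_pow_le k (by omega)
      unfold Nat.centralBinom at this
      exact_mod_cast this
    have h2 := Real.log_le_log (by positivity) h1
    rw [Real.log_pow, Real.log_mul (by positivity) (by positivity),
      Real.log_mul (by norm_num) hk0.ne', Real.log_pow] at h2
    have h16 : Real.log 16 = 2 * Real.log 4 := by
      rw [show (16:ℝ) = 4 ^ 2 by norm_num, Real.log_pow]; norm_num
    have h4 : Real.log 4 = 2 * Real.log 2 := by
      rw [show (4:ℝ) = 2 ^ 2 by norm_num, Real.log_pow]; norm_num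
    rw [h16] at h2
    push_cast at h2
    rw [h4] at h2 ⊢
    linarith
  have e4 : (k:ℝ) * Real.log (2 * (2 * (k : ℝ) - 1)) ≤ k * (Real.log 4 + Real.log k) - 1 / 2 := by
    have := mul_le_mul_of_nonneg_left e2 hk0.le
    have h5 : (k:ℝ) * (Real.log 4 + Real.log k - 1 / (2 * k))
        = k * (Real.log 4 + Real.log k) - 1 / 2 := by
      field_simp
    linarith
  rw [e1]
  nlinarith

end Pool.Agent.N530.GK
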